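import Mathlib
import Pool.Agent.H.MP_cf13c7_al.SL

set_option autoImplicit false

namespace Pool.Agent.Results.MP_cf13c7_al.Definable

open FirstOrder

/-- function symbols of the language of groups -/
inductive Fn : ℕ → Type
  | mul : Fn 2
  | inv : Fn 1
  | one : Fn 0

/-- the language of groups -/
def LG : FirstOrder.Language := ⟨Fn, fun _ => Empty⟩

/-- a group as a structure -/
instance str (G : Type) [Group G] : LG.Structure G where
  funMap := fun {n} f v => match n, f, v with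
    | _, Fn.mul, v => v 0 * v 1
    | _, Fn.inv, v => (v 0)⁻¹
    | _, Fn.one, _ => 1
  RelMap := fun {_} r _ => r.elim

/-- uniformly given by a term -/
def DT (α : Type) (t : ∀ (G : Type) [Group G], (α → G) → G) : Prop :=
  ∃ τ : LG.Term α, ∀ (G : Type) [Group G] (v : α → G), τ.realize v = t G v

/-- uniformly given by a formula -/
def DF (α : Type) (P : ∀ (G : Type) [Group G], (α → G) → Prop) : Prop :=
  ∃ φ : LG.Formula α, ∀ (G : Type) [Group G] (v : α → G), φ.Realize v ↔ P G v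

theorem DT.var {α : Type} (i : α) : DT α (fun _ _ v => v i) := ⟨.var i, fun _ _ _ => rfl⟩

theorem DT.mul {α : Type} {s t : ∀ (G : Type) [Group G], (α → G) → G} (hs : DT α s)
    (ht : DT α t) : DT α (fun G _ v => s G v * t G v) := by
  obtain ⟨σ, hσ⟩ := hs
  obtain ⟨τ, hτ⟩ := ht
  exact ⟨.func Fn.mul ![σ, τ], fun G _ v => congrArg₂ (· * ·) (hσ G v) (hτ G v)⟩

theorem DT.inv {α : Type} {s : ∀ (G : Type) [Group G], (α → G) → G} (hs : DT α s) :
    DT α (fun G _ v => (s G v)⁻¹) := by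
  obtain ⟨σ, hσ⟩ := hs
  exact ⟨.func Fn.inv ![σ], fun G _ v => congrArg (·⁻¹) (hσ G v)⟩

theorem DF.eq {α : Type} {s t : ∀ (G : Type) [Group G], (α → G) → G} (hs : DT α s)
    (ht : DT α t) : DF α (fun G _ v => s G v = t G v) := by
  obtain ⟨σ, hσ⟩ := hs
  obtain ⟨τ, hτ⟩ := ht
  exact ⟨σ.equal τ, fun G _ v => by simp [hσ, hτ]⟩

theorem DF.and {α : Type} {P Q : ∀ (G : Type) [Group G], (α → G) → Prop} (hP : DF α P)
    (hQ : DF α Q) : DF α (fun G _ v => P G v ∧ Q G v) := by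
  obtain ⟨σ, hσ⟩ := hP
  obtain ⟨τ, hτ⟩ := hQ
  exact ⟨σ ⊓ τ, fun G _ v => by simp [hσ, hτ]⟩

theorem DF.ex {α : Type} {P : ∀ (G : Type) [Group G], (α → G) → G → Prop}
    (hP : DF (α ⊕ Unit) (fun G _ w => P G (fun i => w (.inl i)) (w (.inr ())))) :
    DF α (fun G _ v => ∃ x, P G v x) := by
  obtain ⟨σ, hσ⟩ := hP
  refine ⟨σ.iExs Unit, fun G _ v => ?_⟩
  rw [Language.Formula.realize_iExs]
  simp only [hσ, Sum.elim_inl, Sum.elim_inr]
  exact ⟨fun ⟨i, h⟩ => ⟨_, h⟩, fun ⟨x, h⟩ => ⟨fun _ => x, h⟩⟩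

theorem DF.all {α : Type} {P : ∀ (G : Type) [Group G], (α → G) → G → Prop}
    (hP : DF (α ⊕ Unit) (fun G _ w => P G (fun i => w (.inl i)) (w (.inr ())))) :
    DF α (fun G _ v => ∀ x, P G v x) := by
  obtain ⟨σ, hσ⟩ := hP
  refine ⟨σ.iAlls Unit, fun G _ v => ?_⟩
  rw [Language.Formula.realize_iAlls]
  simp only [hσ, Sum.elim_inl, Sum.elim_inr]
  exact ⟨fun h x => h fun _ => x, fun h i => h _⟩

open Pool.Agent.H.MP_cf13c7_al in
theorem DF_K : DF Empty (fun G _ _ => K G) := by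
  simp only [K, F, E, Commute, SemiconjBy, commutatorElement_def]
  repeat' first
    | apply DF.all
    | apply DF.ex
    | apply DF.and
    | apply DF.eq
    | apply DT.mul
    | apply DT.inv
    | apply DT.var

/-- A first-order definable radical class that is neither locally finite nor everything. -/
theorem result : ∃ T : LG.Theory,
    (∀ (G H : Type) [Group G] [Group H] (f : G →* H), Function.Surjective f → G ⊨ T → H ⊨ T) ∧
    (∀ (G : Type) [Group G] (N : Subgroup G), N.Normal → G ⊨ T → N ⊨ T) ∧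
    (∀ (G : Type) [Group G], sSup {N : Subgroup G | N.Normal ∧ N ⊨ T} = ⊤ → G ⊨ T) ∧
    (∃ (G : Type) (_ : Group G), G ⊨ T ∧
      ∃ s : Finset G, Infinite (Subgroup.closure (s : Set G))) ∧
    (∃ (G : Type) (_ : Group G), ¬ G ⊨ T) := by
  obtain ⟨φ, hφ⟩ := DF_K
  have h : ∀ (G : Type) [Group G], G ⊨ ({φ} : LG.Theory) ↔ Pool.Agent.H.MP_cf13c7_al.K G := by
    intro G _
    rw [Language.Theory.model_singleton_iff]
    exact hφ G _
  refine ⟨{φ}, ?_⟩
  simp only [h]
  exact ⟨fun G H _ _ f hf hG => hG.surj f hf, fun G _ N _ hG => hG.normal N,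
    fun G _ hG => Pool.Agent.H.MP_cf13c7_al.K.gen hG, Pool.Agent.H.MP_cf13c7_al.exists_inf,
    _, _, Pool.Agent.H.MP_cf13c7_al.exists_not⟩

end Pool.Agent.Results.MP_cf13c7_al.Definable
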